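import Pool.Agent.U733.GS.Wr

/-!
# Group algebras of the generic countable group are semiprimitive

The space of group operations on `ℕ` carries the topology of pointwise convergence. For the generic
operation all group algebras over fields of the resulting group are semiprimitive.

Idea. Let `α ≠ 0` be in `K[G]` with support `X`, let `x₁ ∈ X` and let `q ∈ {2, 3}` be a prime which is not
the characteristic of `K`. In the restricted wreath product of a cyclic group `⟨s⟩` of order `q` with `G`
the conjugates `s ^ x` for `x ∈ X` are independent and commute, so with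
`e = q - (1 + s + ... + s ^ (q - 1))` and `f` the sum of the elements of the group generated by the `s ^ x`
with `x ≠ x₁`, the element `e α f` is the product of a scalar, of `x₁` and of a nonzero element of which
a multiple is an idempotent. So `α` is not in the Jacobson radical. The existence of such an `s` in `G`
is an open condition, and it is dense since `G` embeds into the wreath product. There are countably many
conditions, one for each `X`, `x₁` and `q`.
-/

set_option autoImplicit false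

namespace Pool.Agent.Results.MP_146d92_al.GenericSemiprimitive

open Pool.Agent.U733.GS

universe u

/-- The space of the group operations on `ℕ`: all `m : ℕ × ℕ → ℕ` which are the multiplication of a
group structure on `ℕ`, with the topology induced by the product topology, `ℕ` being discrete. -/
abbrev GroupOp : Type := {m : ℕ × ℕ → ℕ // ∃ G : Group ℕ, ∀ a b : ℕ, G.mul a b = m (a, b)}

/-- The set `ℕ`, on which `m` will be the multiplication. -/
def Carrier (_m : GroupOp) : Type := ℕ

/-- The group `(ℕ, m)`. -/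
noncomputable instance (m : GroupOp) : Group (Carrier m) := Classical.choose m.2

/-- The multiplication of the group `Carrier m` is `m`. -/
theorem mul_eq (m : GroupOp) (a b : ℕ) :
    (show Carrier m from a) * (show Carrier m from b) = (show Carrier m from m.1 (a, b)) :=
  Classical.choose_spec m.2 a b

/-- The set of the operations which satisfy the condition for `q`, `X`, `x₁`. -/
def U (q : ℕ) (X : Finset ℕ) (x₁ : ℕ) : Set GroupOp :=
  {m | ∃ (A S T : Finset ℕ) (c : ℕ → ℕ), Good (G := Carrier m) q X x₁ A S T c}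

/-- `Good` only depends on products of elements of a finite set. -/
theorem Good.congr {m m' : GroupOp} {q : ℕ} {X : Finset ℕ} {x₁ : ℕ} {A S T : Finset ℕ} {c : ℕ → ℕ}
    (H : Good (G := Carrier m) q X x₁ A S T c) {F : Finset ℕ} (hA : A ⊆ F) (hS : S ⊆ F)
    (hT : T ⊆ F) (hX : X ⊆ F) (hx₁ : x₁ ∈ F) (hm : ∀ a ∈ F, ∀ b ∈ F, m.1 (a, b) = m'.1 (a, b)) :
    Good (G := Carrier m') q X x₁ A S T c where
  cardA := H.cardA
  cardT := H.cardT
  mulA a ha b hb := by
    have h := H.mulA a ha b hb
    have h1 := mul_eq m a b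
    have h2 := mul_eq m' a b
    have h3 := hm a (hA ha) b (hA hb)
    exact (h2.trans (h3.symm.trans h1.symm)) ▸ h
  mulT a ha b hb := by
    have h := H.mulT a ha b hb
    have h1 := mul_eq m a b
    have h2 := mul_eq m' a b
    have h3 := hm a (hT ha) b (hT hb)
    exact (h2.trans (h3.symm.trans h1.symm)) ▸ h
  comm a ha t ht := by
    have h := H.comm a ha t ht
    have h1 := (mul_eq m' a t).trans ((hm a (hA ha) t (hT ht)).symm.trans (mul_eq m a t).symm)
    have h2 := (mul_eq m' t a).trans ((hm t (hT ht) a (hA ha)).symm.trans (mul_eq m t a).symm)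
    exact h1.trans (h.trans h2.symm)
  inter t ht htA := by
    have h := H.inter t ht htA
    exact ((mul_eq m' t t).trans ((hm t (hT ht) t (hT ht)).symm.trans (mul_eq m t t).symm)).trans h
  inj := H.inj
  img := H.img
  surj := H.surj
  conj s hs := by
    have h := H.conj s hs
    have h1 := (mul_eq m' s x₁).trans ((hm s (hS hs) x₁ hx₁).symm.trans (mul_eq m s x₁).symm)
    have h2 := (mul_eq m' x₁ (c s)).trans
      ((hm x₁ hx₁ (c s) (hT (H.img s hs))).symm.trans (mul_eq m x₁ (c s)).symm)
    exact h1.trans (h.trans h2.symm)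
  other x hx hne s hs := by
    obtain ⟨a, ha, h⟩ := H.other x hx hne s hs
    refine ⟨a, ha, ?_⟩
    have h1 := (mul_eq m' s x).trans ((hm s (hS hs) x (hX hx)).symm.trans (mul_eq m s x).symm)
    have h2 := (mul_eq m' x a).trans ((hm x (hX hx) a (hA ha)).symm.trans (mul_eq m x a).symm)
    exact h1.trans (h.trans h2.symm)

theorem isOpen_nbhd (m : GroupOp) (F : Finset ℕ) :
    IsOpen {m' : GroupOp | ∀ a ∈ F, ∀ b ∈ F, m.1 (a, b) = m'.1 (a, b)} := by
  have h : {m' : GroupOp | ∀ a ∈ F, ∀ b ∈ F, m.1 (a, b) = m'.1 (a, b)} =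
      ⋂ a ∈ F, ⋂ b ∈ F, {m' : GroupOp | m.1 (a, b) = m'.1 (a, b)} := by
    ext m'; simp
  rw [h]
  refine isOpen_biInter_finset fun a _ => isOpen_biInter_finset fun b _ => ?_
  have hc : Continuous fun m' : GroupOp => m'.1 (a, b) :=
    (continuous_apply (a, b)).comp continuous_subtype_val
  exact (isOpen_discrete {n : ℕ | m.1 (a, b) = n}).preimage hc

theorem isOpen_U (q : ℕ) (X : Finset ℕ) (x₁ : ℕ) : IsOpen (U q X x₁) := by
  classical
  rw [isOpen_iff_forall_mem_open]
  rintro m ⟨A, S, T, c, H⟩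
  set F : Finset ℕ := insert x₁ (X ∪ (T ∪ ((S : Finset ℕ) ∪ (A : Finset ℕ)))) with hF
  refine ⟨_, ?_, isOpen_nbhd m F, fun a _ b _ => rfl⟩
  intro m' hm'
  refine ⟨A, S, T, c, Good.congr (m := m) H (F := F) ?_ ?_ ?_ ?_ ?_ hm'⟩
  · intro x hx; simp [hF, hx]
  · intro x hx; simp [hF, hx]
  · intro x hx; simp [hF, hx]
  · intro x hx; simp [hF, hx]
  · simp [hF]

/-- `Good` is invariant under isomorphisms. -/
theorem Good.map {G H : Type} [Group G] [Group H] (ψ : G ≃* H) {q : ℕ} {X : Finset G} {x₁ : G}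
    {A S T : Finset G} {c : G → G} (h : Good q X x₁ A S T c) :
    Good q (X.map ψ.toEquiv.toEmbedding) (ψ x₁) (A.map ψ.toEquiv.toEmbedding)
      (S.map ψ.toEquiv.toEmbedding) (T.map ψ.toEquiv.toEmbedding) (fun x => ψ (c (ψ.symm x))) where
  cardA := by rw [Finset.card_map]; exact h.cardA
  cardT := by rw [Finset.card_map]; exact h.cardT
  mulA a ha b hb := by
    obtain ⟨a, ha', rfl⟩ := Finset.mem_map.1 ha
    obtain ⟨b, hb', rfl⟩ := Finset.mem_map.1 hb
    exact Finset.mem_map.2 ⟨a * b, h.mulA a ha' b hb', map_mul ψ a b⟩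
  mulT a ha b hb := by
    obtain ⟨a, ha', rfl⟩ := Finset.mem_map.1 ha
    obtain ⟨b, hb', rfl⟩ := Finset.mem_map.1 hb
    exact Finset.mem_map.2 ⟨a * b, h.mulT a ha' b hb', map_mul ψ a b⟩
  comm a ha b hb := by
    obtain ⟨a, ha', rfl⟩ := Finset.mem_map.1 ha
    obtain ⟨b, hb', rfl⟩ := Finset.mem_map.1 hb
    show ψ a * ψ b = ψ b * ψ a
    rw [← map_mul, ← map_mul, h.comm a ha' b hb']
  inter t ht htA := by
    obtain ⟨t, ht', rfl⟩ := Finset.mem_map.1 ht
    rw [Finset.mem_map' ψ.toEquiv.toEmbedding] at htA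
    show ψ t * ψ t = ψ t
    rw [← map_mul, h.inter t ht' htA]
  inj s hs s' hs' hss := by
    obtain ⟨s, hs1, rfl⟩ := Finset.mem_map.1 hs
    obtain ⟨s', hs1', rfl⟩ := Finset.mem_map.1 hs'
    have h1 : ψ (c (ψ.symm (ψ s))) = ψ (c (ψ.symm (ψ s'))) := hss
    rw [ψ.symm_apply_apply, ψ.symm_apply_apply] at h1
    rw [h.inj s hs1 s' hs1' (ψ.injective h1)]
  img s hs := by
    obtain ⟨s, hs1, rfl⟩ := Finset.mem_map.1 hs
    have h1 : ψ (c (ψ.symm (ψ s))) ∈ T.map ψ.toEquiv.toEmbedding := by
      rw [ψ.symm_apply_apply]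
      exact Finset.mem_map.2 ⟨c s, h.img s hs1, rfl⟩
    exact h1
  surj t ht := by
    obtain ⟨t, ht1, rfl⟩ := Finset.mem_map.1 ht
    obtain ⟨s, hs, hst⟩ := h.surj t ht1
    refine ⟨ψ s, Finset.mem_map.2 ⟨s, hs, rfl⟩, ?_⟩
    show ψ (c (ψ.symm (ψ s))) = ψ t
    rw [ψ.symm_apply_apply, hst]
  conj s hs := by
    obtain ⟨s, hs1, rfl⟩ := Finset.mem_map.1 hs
    show ψ s * ψ x₁ = ψ x₁ * ψ (c (ψ.symm (ψ s)))
    rw [ψ.symm_apply_apply, ← map_mul, ← map_mul, h.conj s hs1]
  other x hx hne s hs := by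
    obtain ⟨x, hx1, rfl⟩ := Finset.mem_map.1 hx
    obtain ⟨s, hs1, rfl⟩ := Finset.mem_map.1 hs
    obtain ⟨a, ha, hsa⟩ := h.other x hx1 (fun h => hne (by rw [h]; rfl)) s hs1
    refine ⟨ψ a, Finset.mem_map.2 ⟨a, ha, rfl⟩, ?_⟩
    show ψ s * ψ x = ψ x * ψ a
    rw [← map_mul, ← map_mul, hsa]

/-- A countable group `H` containing `(ℕ, m)` is isomorphic to `(ℕ, m')` by an isomorphism which is the
identity on a given finite set. -/
theorem exists_iso (m : GroupOp) {H : Type} [Group H] [Countable H] (φ : Carrier m →* H)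
    (hφ : Function.Injective φ) (F : Finset ℕ) :
    ∃ (m' : GroupOp) (ψ : H ≃* Carrier m'), ∀ a ∈ F, ψ (φ (show Carrier m from a)) = a := by
  classical
  have hinf : Infinite H := Infinite.of_injective (fun a : ℕ => φ (show Carrier m from a)) hφ
  obtain ⟨e0⟩ : Nonempty (H ≃ ℕ) := nonempty_equiv_of_countable
  let s : Set H := (fun a : ℕ => φ (show Carrier m from a)) '' (F : Set ℕ)
  have hsfin : s.Finite := (Finset.finite_toSet F).image _
  let f0 : s → ℕ := fun x => Classical.choose x.2
  have hf0 : ∀ x : s, f0 x ∈ (F : Set ℕ) ∧ φ (show Carrier m from f0 x) = x.1 :=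
    fun x => Classical.choose_spec x.2
  have hinj : Function.Injective f0 := by
    intro x y hxy
    apply Subtype.ext
    rw [← (hf0 x).2, ← (hf0 y).2, hxy]
  have hlt : Cardinal.mk s < Cardinal.mk H := by
    have h1 : Cardinal.mk s < Cardinal.aleph0 := Cardinal.lt_aleph0_iff_set_finite.2 hsfin
    exact h1.trans_le (Cardinal.aleph0_le_mk H)
  obtain ⟨ψ, hψ⟩ := Cardinal.extend_function_of_lt ⟨f0, hinj⟩ hlt ⟨e0⟩
  let grp : Group ℕ := ψ.symm.group
  let m' : GroupOp := ⟨fun p => grp.mul p.1 p.2, grp, fun a b => rfl⟩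
  have hmul : ∀ x y : H, (show Carrier m' from ψ (x * y)) =
      (show Carrier m' from ψ x) * (show Carrier m' from ψ y) := by
    intro x y
    refine Eq.trans ?_ (mul_eq m' (ψ x) (ψ y)).symm
    show ψ (x * y) = ψ (ψ.symm (ψ x) * ψ.symm (ψ y))
    rw [ψ.symm_apply_apply, ψ.symm_apply_apply]
  refine ⟨m', { toEquiv := ψ, map_mul' := hmul }, ?_⟩
  intro a ha
  have hmem : φ (show Carrier m from a) ∈ s := ⟨a, ha, rfl⟩
  have h1 := hψ ⟨_, hmem⟩
  have h2 : f0 ⟨_, hmem⟩ = a := hφ (hf0 ⟨_, hmem⟩).2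
  exact h1.trans h2

theorem dense_U (q : ℕ) [NeZero q] (X : Finset ℕ) (x₁ : ℕ) : Dense (U q X x₁) := by
  classical
  rw [dense_iff_inter_open]
  rintro V hV ⟨m, hm⟩
  obtain ⟨W, hW, rfl⟩ := isOpen_induced_iff.1 hV
  obtain ⟨I, u, hu, hIu⟩ := isOpen_pi_iff.1 hW m.1 hm
  let F : Finset ℕ := insert x₁ (X ∪ (I.image Prod.fst ∪ (I.image Prod.snd ∪ I.image m.1)))
  have hcount : Countable (Carrier m) := inferInstanceAs (Countable ℕ)
  obtain ⟨m', ψ, hψ⟩ := exists_iso m (H := Wr (Carrier m) q) SemidirectProduct.inr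
    SemidirectProduct.inr_injective F
  refine ⟨m', ?_, ?_⟩
  · apply hIu
    intro p hp
    have h1 : p.1 ∈ F := by
      simp only [F, Finset.mem_insert, Finset.mem_union, Finset.mem_image]
      exact Or.inr (Or.inr (Or.inl ⟨p, hp, rfl⟩))
    have h2 : p.2 ∈ F := by
      simp only [F, Finset.mem_insert, Finset.mem_union, Finset.mem_image]
      exact Or.inr (Or.inr (Or.inr (Or.inl ⟨p, hp, rfl⟩)))
    have h3 : m.1 p ∈ F := by
      simp only [F, Finset.mem_insert, Finset.mem_union, Finset.mem_image]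
      exact Or.inr (Or.inr (Or.inr (Or.inr ⟨p, hp, rfl⟩)))
    have h4 : m'.1 p = m.1 p := by
      have e1 : m'.1 (p.1, p.2) = (show Carrier m' from p.1) * (show Carrier m' from p.2) :=
        (mul_eq m' p.1 p.2).symm
      have e2 : (show Carrier m from p.1) * (show Carrier m from p.2) = m.1 (p.1, p.2) :=
        mul_eq m p.1 p.2
      have e3 := hψ _ h3
      have e4 : (show Carrier m from m.1 p) =
        (show Carrier m from p.1) * (show Carrier m from p.2) := e2.symm
      rw [e4, map_mul, map_mul, hψ _ h1, hψ _ h2] at e3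
      exact e1.trans e3
    rw [h4]
    exact (hu p hp).2
  · obtain ⟨A, S, T, c, hgood⟩ := good_wr (G := Carrier m) q X x₁
    have h1 := Good.map ψ hgood
    have hXF : ∀ x ∈ X, x ∈ F := by
      intro x hx
      simp only [F, Finset.mem_insert, Finset.mem_union]
      exact Or.inr (Or.inl hx)
    have h2 : (Finset.map ψ.toEquiv.toEmbedding (Finset.map
        ⟨fun x => (SemidirectProduct.inr x : Wr (Carrier m) q), SemidirectProduct.inr_injective⟩
        (show Finset (Carrier m) from X))) = (show Finset (Carrier m') from X) := by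
      refine Finset.ext fun y => ⟨fun hy => ?_, fun hy => ?_⟩
      · obtain ⟨z, hz, rfl⟩ := Finset.mem_map.1 hy
        obtain ⟨x, hx, rfl⟩ := Finset.mem_map.1 hz
        have h4 : ψ (SemidirectProduct.inr (show Carrier m from x)) = x := hψ x (hXF x hx)
        have h5 : (show ℕ from ψ (SemidirectProduct.inr (show Carrier m from x))) ∈ X := by
          rw [show (show ℕ from ψ (SemidirectProduct.inr (show Carrier m from x))) = x from h4]
          exact hx
        exact h5
      · exact Finset.mem_map.2 ⟨_, Finset.mem_map.2 ⟨y, hy, rfl⟩, hψ y (hXF y hy)⟩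
    have h3 : ψ (SemidirectProduct.inr (show Carrier m from x₁)) = x₁ :=
      hψ x₁ (Finset.mem_insert_self _ _)
    rw [h2] at h1
    refine ⟨Finset.map ψ.toEquiv.toEmbedding A, Finset.map ψ.toEquiv.toEmbedding S,
      Finset.map ψ.toEquiv.toEmbedding T, fun x => ψ (c (ψ.symm x)), ?_⟩
    have h6 : ∀ y : Carrier m', ψ (SemidirectProduct.inr (show Carrier m from x₁)) = y →
        Good (G := Carrier m') q X y (Finset.map ψ.toEquiv.toEmbedding A)
          (Finset.map ψ.toEquiv.toEmbedding S) (Finset.map ψ.toEquiv.toEmbedding T)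
          (fun x => ψ (c (ψ.symm x))) := fun y hy => hy ▸ h1
    exact h6 _ h3

/-- **Q1, answered in the affirmative, for all fields at once.** For the generic group `G` with
underlying set `ℕ`, the group algebra `K[G]` is semiprimitive for every field `K`, in particular for
`K = ℚ`. -/
theorem result :
    {m : GroupOp | ∀ (K : Type u) [Field K], Ring.jacobson (MonoidAlgebra K (Carrier m)) = ⊥} ∈
      residual GroupOp := by
  have h : ∀ p : ℕ × Finset ℕ × ℕ, (p.1 = 2 ∨ p.1 = 3) → U p.1 p.2.1 p.2.2 ∈ residual GroupOp := by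
    intro p hp
    have : NeZero p.1 := ⟨by omega⟩
    exact residual_of_dense_open (isOpen_U _ _ _) (dense_U _ _ _)
  have h2 : (⋂ p : ℕ × Finset ℕ × ℕ, ⋂ _ : (p.1 = 2 ∨ p.1 = 3), U p.1 p.2.1 p.2.2) ∈
      residual GroupOp := by
    rw [countable_iInter_mem]
    intro p
    rw [countable_iInter_mem]
    exact h p
  refine Filter.mem_of_superset h2 ?_
  intro m hm K _
  rw [Set.mem_iInter] at hm
  refine main_alg (fun q hq X x₁ _ => ?_)
  have := hm (q, X, x₁)
  rw [Set.mem_iInter] at this
  exact this hq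

end Pool.Agent.Results.MP_146d92_al.GenericSemiprimitive
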